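import Pool.Agent.H654R2.MED.Final
import Pool.Agent.Y669.EX.Med

/-!
# M-ETERNAL DOMINATION is EXPTIME-complete

`MED` is the decision problem: given the adjacency matrix of a finite simple graph `G` and a number
`k` (in binary), is the m-eternal domination number of `G` at most `k`?

The lower bound is the reduction of the earlier result `EternalHard`.  The upper bound, formalised
here, is backward induction: the configurations of `k` guards are the vertices of an implicitly
given graph of exponential size, a turn (an attack, and then the moves of the guards one after the
other) is an alternation of universal and existential steps, and alternating reachability in such a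
graph is decided by a Turing machine in exponential time.  With the time hierarchy theorem, the
problem is not in `P`.
-/

set_option autoImplicit false

namespace Pool.Agent.Results.MP_7f5e5b_lc.ExptimeComplete

open Pool.Agent.NPC Pool.Agent.H654R2.MED Pool.Agent.Y669.EX

/-- **M-ETERNAL DOMINATION is `EXPTIME`-complete**: a Turing machine decides it in time `2 ^ p n`,
`p` a polynomial, and every language decided in such a time has a polynomial-time many-one reduction
to it.  Hence it is not in `P`, and it is in `PSPACE` if and only if `EXPTIME ⊆ PSPACE`. -/
theorem result : InEXPTIME (lang MED) ∧ EXPTIMEHard (lang MED) ∧ ¬ InP (lang MED) ∧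
    (InPSPACE (lang MED) ↔ ∀ L, InEXPTIME L → InPSPACE L) := by
  refine ⟨Med.med_exp, Pool.Agent.NPC.H654M.med_hard, fun h => ?_,
    Pool.Agent.NPC.H654M.pspace_collapse, fun h => h _ Med.med_exp⟩
  obtain ⟨L, h1, h2⟩ := exists_inEXPB_not_inP
  exact h2 (InP.of_reduces (Pool.Agent.NPC.H654M.med_hard L h1) h)

end Pool.Agent.Results.MP_7f5e5b_lc.ExptimeComplete
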